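import Pool.Agent.H12.KG.Targets2

/-!
# Row LAST of board kpg_modules: the last step for schemes
-/

set_option autoImplicit false
set_option linter.dupNamespace false

namespace Pool.Agent.H2.KG

open AlgebraicGeometry CategoryTheory Pool.Agent.H12.KP Pool.Agent.H12.KG Pool.Agent.H62.MK
  Pool.Agent.H19.KN

universe u

/-- the special fibre is stable under specialisation -/
theorem sp_mono {A : Type u} [CommRing A] {X : Scheme.{u}} (f : X ⟶ Spec (CommRingCat.of A))
    (π : A) (x y : X) (h : x ⤳ y) (hx : Sp f π x) : Sp f π y := by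
  intro hu
  refine hx ?_
  have he : stA f x π = (X.presheaf.stalkSpecializes h).hom (stA f y π) := by
    have h1 : (Scheme.ΓSpecIso (CommRingCat.of A)).inv ≫ f.appTop ≫ X.presheaf.germ ⊤ x trivial =
        ((Scheme.ΓSpecIso (CommRingCat.of A)).inv ≫ f.appTop ≫ X.presheaf.germ ⊤ y trivial) ≫
          X.presheaf.stalkSpecializes h := by
      rw [Category.assoc, Category.assoc]
      congr 2
      exact (TopCat.Presheaf.germ_stalkSpecializes X.presheaf (U := ⊤)
        (TopologicalSpace.Opens.mem_top y) h).symm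
    unfold stA
    rw [h1]
    rfl
  rw [he]
  exact hu.map _

/-- the subgroups used in COMB -/
noncomputable def UU {A : Type u} [CommRing A] {X : Scheme.{u}}
    (f : X ⟶ Spec (CommRingCat.of A)) (π : A) (q n : ℕ) (w y : X) :
    AddSubgroup (MilnorK (X.residueField w) 1) :=
  open Classical in
  if hwy : w ⤳ y then USub q (kA f w π) n (BB hwy) 1 else ⊤

theorem UU_pos {A : Type u} [CommRing A] {X : Scheme.{u}}
    (f : X ⟶ Spec (CommRingCat.of A)) (π : A) (q n : ℕ) (w y : X) (h : w ⤳ y) :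
    UU f π q n w y = USub q (kA f w π) n (BB h) 1 := by
  unfold UU
  rw [dif_pos h]

theorem pf_LAST (hC : S_COMB.{u}) (hK : S_K1D.{u}) (hB : S_BBP.{u}) (hP : S_P1X.{u})
    (hW : S_WA1X.{u}) (hU : S_UCX.{u}) : S_LAST.{u} := by
  intro A S _ _ _ _ _ _ _ 𝒮 _ hFG hadj X i hi π hπ p hp ε e r n hpe hε hr hn I1 I0 _ _ p1 p0
    hd1 hd0 hcod dd hloc hunit J _ U hUs hUc h z h1 h2 h3
  have hn1 : 1 ≤ n := by omega
  set f : X ⟶ Spec (CommRingCat.of A) := i ≫ projStr 𝒮 with hf
  obtain ⟨hU1, hU2, hU3⟩ := hU A S 𝒮 hFG hadj X i hi π hπ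
  -- additivity of single
  have dadd : ∀ (w : I1) (x y : MilnorK (X.residueField (p1 w)) 1) (v : I0),
      dd (DFinsupp.single w ((p ^ r) • x + y)) v =
        (p ^ r) • dd (DFinsupp.single w x) v + dd (DFinsupp.single w y) v := by
    intro w x y v
    have e1 : (DFinsupp.single w ((p ^ r) • x + y) :
        Π₀ w : I1, MilnorK (X.residueField (p1 w)) 1) =
        (p ^ r) • DFinsupp.single w x + DFinsupp.single w y := by
      rw [DFinsupp.single_add]
      congr 1
      exact DFinsupp.single_smul _ _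
    rw [e1, map_add, map_nsmul, DFinsupp.add_apply, DFinsupp.smul_apply]
  refine hC X (fun x y => x ⤳ y) (fun x => specializes_refl x) (fun x y z h1 h2 => h1.trans h2)
    (Sp f π) (fun x => IsClosed ({x} : Set X)) (p ^ r) I1 I0 p1 p0
    (fun w => MilnorK (X.residueField (p1 w)) 1) (fun v => MilnorK (X.residueField (p0 v)) 0)
    dd (fun w y => UU f π (p ^ r) n (p1 w) y) hloc (fun x y h => sp_mono f π x y h) hU2 hU1
    ?_ ?_ ?_ ?_ ?_ J (fun a x => x ∈ U a) hUs hUc h z h1 ?_ h3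
  · intro w v hw hv hwv
    refine ⟨hwv, hv, ?_⟩
    intro y' hy1 hy2 hy3
    rcases hcod w v y' hy1 hy2 with h | h
    · exfalso
      rw [h] at hy3
      exact hw hy3
    · exact h
  · intro w v hw hv hwv c hc
    rw [UU_pos f π (p ^ r) n (p1 w) (p0 v) hwv] at hc
    obtain ⟨hB1, hB2, hB3, hB4, hB5, hB6⟩ := hB A X f π (p1 w) (p0 v) hwv
    obtain ⟨K1, K2, K3, K4, K5⟩ := hK (X.residueField (p1 w))
    obtain ⟨u, rfl⟩ := K1 c
    obtain ⟨t, s, hs, hu⟩ := (K5 (p ^ r) n (kA f (p1 w) π) (BB hwv) (hB2 π) hn1 (hB3 hv) u).mp hc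
    obtain ⟨b, hb, hsb⟩ := hs
    have hsB : (s : X.residueField (p1 w)) ∈ BB hwv := by
      rw [hsb]
      exact (BB hwv).add_mem (BB hwv).one_mem ((BB hwv).mul_mem ((BB hwv).pow_mem (hB2 π) n) hb)
    have hsB' : ((s⁻¹ : (X.residueField (p1 w))ˣ) : X.residueField (p1 w)) ∈ BB hwv := by
      obtain ⟨b', hb', hbb⟩ := hB3 hv (kA f (p1 w) π ^ (n - 1) * b)
        ((BB hwv).mul_mem ((BB hwv).pow_mem (hB2 π) _) hb)
      have e1 : kA f (p1 w) π * (kA f (p1 w) π ^ (n - 1) * b) = kA f (p1 w) π ^ n * b := by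
        rw [← mul_assoc, ← pow_succ']
        congr 2
        omega
      rw [e1, ← hsb] at hbb
      have e2 : ((s⁻¹ : (X.residueField (p1 w))ˣ) : X.residueField (p1 w)) = b' := by
        rw [Units.val_inv_eq_inv_val]
        exact inv_eq_of_mul_eq_one_right hbb
      rw [e2]
      exact hb'
    have hz : dd (DFinsupp.single w (sym (fun _ => s))) v = 0 :=
      hunit w v hwv s ((hB1 _).mp hsB) ((hB1 _).mp hsB')
    refine ⟨dd (DFinsupp.single w (sym (fun _ => t))) v, ?_⟩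
    rw [hu, K2, K3, dadd, hz, add_zero]
  · intro v hv x x' hx hxc hx' hxc'
    exact (hU3 (p0 v) hv (fun x hx hne => hd0 v x hx hne)).unique ⟨hx, hxc⟩ ⟨hx', hxc'⟩
  · intro w hw x hxc hwx g hg
    obtain ⟨K1, K2, K3, K4, K5⟩ := hK (X.residueField (p1 w))
    obtain ⟨u, rfl⟩ := K1 g
    obtain ⟨a, ha⟩ : ∃ a, n = r * e + a := ⟨n - r * e, by omega⟩
    have hre : e ≤ r * e := Nat.le_mul_of_pos_left e hr
    have hae : e < a * (p - 1) := by
      have h1 : e + 1 ≤ a := by omega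
      have h2 : 1 ≤ p - 1 := by
        have := hp.two_le
        omega
      have h3 : a * 1 ≤ a * (p - 1) := Nat.mul_le_mul_left a h2
      omega
    obtain ⟨ξ, hξ0, ⟨t, ht0, v', hξ⟩, hξ2⟩ := hP A S 𝒮 hFG hadj X i hi π hπ p hp ε e a r hpe hε
      (by omega) hae (p1 w) x
      ⟨hw, fun y x hy1 hy2 hne hy3 => hd1 w y x hy1 hy2 (fun h => hw (h ▸ hy3)) hne⟩ hwx hxc
      (u : X.residueField (p1 w)) u.ne_zero (by
        intro y hy hyx hG
        rw [← ha]
        obtain ⟨hB1, hB2, hB3, hB4, hB5, hB6⟩ := hB A X f π (p1 w) y hy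
        refine hB4 (p ^ r) n hG.2.1 hn1 u ?_
        rw [← UU_pos]
        exact hg y hG hyx)
    have key : ∀ (x : X) (hwx : p1 w ⤳ x) (c0 t : (X.residueField (p1 w))ˣ)
        (v' : (X.presheaf.stalk x)ˣ) (v : I0), p1 w ⤳ p0 v → p0 v ⤳ x →
        (c0 : X.residueField (p1 w)) = (t : X.residueField (p1 w)) ^ (p ^ r) *
          rho hwx (v' : X.presheaf.stalk x) →
        ∃ c, dd (DFinsupp.single w (sym (fun _ => c0))) v = (p ^ r) • c := by
      intro x hwx c0 t v' v hwv hvx hc0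
      obtain ⟨hB1, hB2, hB3, hB4, hB5, hB6⟩ := hB A X f π (p1 w) x hwx
      obtain ⟨i1, i2⟩ := hB6 (p0 v) x hwv hvx hwx v'
      have hc1 : c0 = t ^ (p ^ r) * Units.map (rho hwx).toMonoidHom v' := by
        apply Units.ext
        rw [hc0, Units.val_mul, Units.val_pow_eq_pow_val]
        rfl
      have hz : dd (DFinsupp.single w (sym (fun _ => Units.map (rho hwx).toMonoidHom v'))) v
          = 0 := by
        refine hunit w v hwv _ i1 ?_
        rw [Units.val_inv_eq_inv_val]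
        exact i2
      refine ⟨dd (DFinsupp.single w (sym (fun _ => t))) v, ?_⟩
      rw [hc1, K2, K3, dadd, hz, add_zero]
    refine ⟨sym (fun _ => Units.mk0 ξ hξ0), ?_, ?_⟩
    · intro v hwv hvx
      have e1 : (sym (fun _ => Units.mk0 ξ hξ0) : MilnorK (X.residueField (p1 w)) 1) -
          sym (fun _ => u) = sym (fun _ => Units.mk0 ξ hξ0 * u⁻¹) := by
        rw [sub_eq_iff_eq_add, ← K2]
        congr 1
        funext _
        rw [inv_mul_cancel_right]
      rw [e1]
      refine key x hwx (Units.mk0 ξ hξ0 * u⁻¹) (Units.mk0 t ht0) v' v hwv hvx ?_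
      rw [Units.val_mul, Units.val_mk0, Units.val_mk0, Units.val_inv_eq_inv_val, hξ]
      have hu0 : (u : X.residueField (p1 w)) ≠ 0 := u.ne_zero
      field_simp
    · intro x' hxc' hne v hwv hvx
      obtain ⟨t', ht', v'', hξ'⟩ := hξ2 x' (hwv.trans hvx) hxc' hne
      exact key x' (hwv.trans hvx) (Units.mk0 ξ hξ0) (Units.mk0 t' ht') v'' v hwv hvx hξ'
  · intro w hw H
    obtain ⟨K1, K2, K3, K4, K5⟩ := hK (X.residueField (p1 w))
    choose uu huu using fun y => K1 (H y)
    obtain ⟨h0, hh0, hh⟩ := hW A S 𝒮 hFG hadj X i hi π hπ n hn1 (p1 w) hw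
      (fun y => (uu y : X.residueField (p1 w))) (fun y => (uu y).ne_zero)
    refine ⟨sym (fun _ => Units.mk0 h0 hh0), ?_⟩
    intro y hy
    obtain ⟨s, hs⟩ := hh y hy.1 hy
    obtain ⟨hB1, hB2, hB3, hB4, hB5, hB6⟩ := hB A X f π (p1 w) y hy.1
    rw [UU_pos f π (p ^ r) n (p1 w) y hy.1, huu y]
    have e1 : (sym (fun _ => Units.mk0 h0 hh0) : MilnorK (X.residueField (p1 w)) 1) -
        sym (fun _ => uu y) = sym (fun _ => Units.mk0 h0 hh0 * (uu y)⁻¹) := by
      rw [sub_eq_iff_eq_add, ← K2]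
      congr 1
      funext _
      rw [inv_mul_cancel_right]
    rw [e1]
    refine hB5 (p ^ r) n s _ ?_
    have hu0 : (uu y : X.residueField (p1 w)) ≠ 0 := (uu y).ne_zero
    rw [Units.val_mul, Units.val_mk0, Units.val_inv_eq_inv_val, hs, mul_comm, ← mul_assoc,
      inv_mul_cancel₀ hu0, one_mul]
  · intro a b w y ha hb hw hy
    rw [UU_pos f π (p ^ r) n (p1 w) y hy.1]
    exact h2 a b w y ha hb hw hy hy.1

end Pool.Agent.H2.KG
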